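import Pool.Agent.H13.NS

open Filter

namespace Pool.Agent.Results.MP_b27926_lc.NotFeMin

open Pool.Agent.H13.NS

/-- The product of ultrafilters. -/
def umul (F G : Ultrafilter ℕ+) : Ultrafilter ℕ+ := F.bind fun n => G.map (n * ·)

def MDvd (F G : Ultrafilter ℕ+) : Prop := ∃ H₁ H₂, G = umul (umul H₁ F) H₂

def FeSet (A B : Set ℕ+) : Prop := ∀ E ⊆ A, E.Finite → ∃ k : ℕ+, ∀ x ∈ E, k * x ∈ B

def Fe (F G : Ultrafilter ℕ+) : Prop := ∀ B ∈ G, ∃ A ∈ F, FeSet A B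

def Minimal' (ρ : Ultrafilter ℕ+ → Ultrafilter ℕ+ → Prop) (F : Ultrafilter ℕ+) : Prop :=
  F ≠ pure 1 ∧ ∀ G, ρ G F → G = pure 1 ∨ (ρ G F ∧ ρ F G)

lemma mem_umul (F G : Ultrafilter ℕ+) (A : Set ℕ+) :
    A ∈ umul F G ↔ {n | {m | n * m ∈ A} ∈ G} ∈ F := Iff.rfl

lemma ne_one {F : Ultrafilter ℕ+} (h : F ≠ pure 1) : ∀ᶠ a in (F : Filter ℕ+), a ≠ 1 := by
  by_contra hc
  apply h
  refine Ultrafilter.coe_le_coe.1 (le_pure_iff.2 ?_)
  exact (Ultrafilter.eventually_not.2 hc).mono fun a ha => not_not.1 ha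

lemma split {a b : ℕ+} {s t : ℕ} (h : a * b = pr s * pr t) (ha : a ≠ 1) (hb : b ≠ 1) :
    (a = pr s ∧ b = pr t) ∨ (a = pr t ∧ b = pr s) := by
  have key : ∀ {a b : ℕ+}, a * b = pr s * pr t → b ≠ 1 → pr s ∣ a → a = pr s ∧ b = pr t := by
    rintro _ b h hb ⟨c, rfl⟩
    rw [mul_assoc] at h
    have h' := mul_left_cancel h
    have h1 : (b : ℕ) ∣ pr t := ⟨c, by rw [← h', mul_comm c, PNat.mul_coe]⟩
    rcases (pr_prime t).eq_one_or_self_of_dvd _ h1 with g | g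
    · exact absurd (PNat.coe_eq_one_iff.1 g) hb
    · have g' : b = pr t := PNat.eq g
      rw [g'] at h'
      have : c = 1 := mul_right_cancel (h'.trans (one_mul _).symm)
      exact ⟨by rw [this, mul_one], g'⟩
  have : (pr s : ℕ) ∣ a * b := ⟨pr t, by exact_mod_cast h⟩
  rcases (pr_prime s).dvd_mul.1 this with g | g
  · exact Or.inl (key h hb (PNat.dvd_iff.2 g))
  · exact Or.inr (key (by rw [mul_comm, h]) ha (PNat.dvd_iff.2 g)).symm

lemma pr_inj {a b : ℕ} (h : pr a = pr b) : a = b := pr_dvd (by rw [h])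

lemma pr_ne (a : ℕ) : pr a ≠ 1 := fun h => (pr_prime a).ne_one (by rw [h]; rfl)

theorem result : ∃ F G : Ultrafilter ℕ+, Minimal' MDvd F ∧ G ≠ pure 1 ∧ Fe G F ∧ ¬ Fe F G ∧
    ¬ Minimal' Fe F := by
  let U : Ultrafilter ℕ := hyperfilter ℕ
  have hU : ∀ k, ∀ᶠ n in (U : Filter ℕ), k < n := fun k =>
    Nat.hyperfilter_le_atTop (eventually_gt_atTop k)
  let F : Ultrafilter ℕ+ := U.bind fun n => U.bind fun i => U.map fun j =>
    pr (2 * i + 1) * pr (2 * Nat.pair n j)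
  have hF : ∀ B : Set ℕ+, B ∈ F ↔ ∀ᶠ n in (U : Filter ℕ), ∀ᶠ i in (U : Filter ℕ),
      ∀ᶠ j in (U : Filter ℕ), pr (2 * i + 1) * pr (2 * Nat.pair n j) ∈ B := fun B => Iff.rfl
  let B : ℕ → Set ℕ+ := fun m =>
    {x | ∃ n i j, m < n ∧ n < i ∧ i < j ∧ x = pr (2 * i + 1) * pr (2 * Nat.pair n j)}
  have hB : ∀ m, B m ∈ F := fun m => (hF _).2 ((hU m).mono fun n hn => (hU n).mono fun i hi =>
    (hU i).mono fun j hj => ⟨n, i, j, hn, hi, hj, rfl⟩)
  have irr : ∀ P Q, F = umul P Q → P = pure 1 ∨ Q = pure 1 := by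
    intro P Q h
    by_contra hc
    push Not at hc
    have hP := ne_one hc.1
    have hQ := ne_one hc.2
    have hB' : ∀ m, ∃ a, a ≠ 1 ∧ ∀ᶠ b in (Q : Filter ℕ+), a * b ∈ B m := fun m => by
      have := hB m
      rw [h] at this
      exact (hP.and this).exists
    obtain ⟨a, ha, h0⟩ := hB' 0
    obtain ⟨b, hb, n, i, j, -, -, -, e⟩ := (hQ.and h0).exists
    obtain ⟨a', ha', h1⟩ := hB' (i + j)
    obtain ⟨b', hb', ⟨n1, i1, j1, -, g1, g2, e1⟩, n2, i2, j2, g3, g4, g5, e2⟩ :=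
      (hQ.and (h0.and h1)).exists
    rcases split e ha hb with ⟨r1, -⟩ | ⟨r1, -⟩ <;>
    rcases split e1 ha hb' with ⟨r2, r3⟩ | ⟨r2, r3⟩ <;>
    rcases split e2 ha' hb' with ⟨-, r4⟩ | ⟨-, r4⟩ <;>
    have s1 := pr_inj (r1.symm.trans r2) <;> have s2 := pr_inj (r3.symm.trans r4)
    all_goals first
      | omega
      | (have := Nat.pair_eq_pair.1 (by omega : Nat.pair n1 j1 = Nat.pair n2 j2); omega)
      | (have := Nat.pair_eq_pair.1 (by omega : Nat.pair n j = Nat.pair n1 j1); omega)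
  have one_mul' : ∀ P, umul (pure 1) P = P := fun P => by ext A; simp [mem_umul]
  have mul_one' : ∀ P, umul P (pure 1) = P := fun P => by ext A; simp [mem_umul]
  have assoc : ∀ P Q R, umul (umul P Q) R = umul P (umul Q R) := fun P Q R => by
    ext A; simp [mem_umul, mul_assoc]
  have hF1 : F ≠ pure 1 := fun h => by
    obtain ⟨n, i, j, -, -, -, e⟩ : (1 : ℕ+) ∈ B 0 := by have := hB 0; rwa [h] at this
    exact pr_ne _ (PNat.dvd_one_iff _ |>.1 ⟨_, e⟩)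
  let G : Ultrafilter ℕ+ := U.map fun i => pr (2 * i + 1)
  have hG1 : G ≠ pure 1 := fun h => by
    have : (Set.range fun i => pr (2 * i + 1)) ∈ G := range_mem_map
    rw [h] at this
    obtain ⟨i, hi⟩ := this
    exact pr_ne _ hi
  have hGF : Fe G F := fun C hC => by
    obtain ⟨n, hn⟩ := ((hF C).1 hC).exists
    refine ⟨{x | ∀ᶠ j in (U : Filter ℕ), x * pr (2 * Nat.pair n j) ∈ C}, hn, fun E hE hf => ?_⟩
    obtain ⟨j, hj⟩ := ((eventually_all_finite hf).2 hE).exists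
    exact ⟨_, fun x hx => by rw [mul_comm]; exact hj x hx⟩
  have hFG : ¬ Fe F G := fun h => by
    obtain ⟨A, hA, hA'⟩ := h _ (range_mem_map (f := (U : Filter ℕ)) (m := fun i => pr (2 * i + 1)))
    obtain ⟨x, hx, n, i, j, -, -, -, rfl⟩ := F.nonempty_of_mem (inter_mem hA (hB 0))
    obtain ⟨k, hk⟩ := hA' {_} (Set.singleton_subset_iff.2 hx) (Set.finite_singleton _)
    obtain ⟨l, hl⟩ := hk _ rfl
    have e1 := pr_dvd (a := 2 * i + 1) (b := 2 * l + 1) (PNat.dvd_iff.1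
      ⟨k * pr (2 * Nat.pair n j), hl.trans (mul_left_comm _ _ _)⟩)
    have e2 := pr_dvd (a := 2 * Nat.pair n j) (b := 2 * l + 1) (PNat.dvd_iff.1
      ⟨k * pr (2 * i + 1), hl.trans (by rw [← mul_assoc, mul_comm])⟩)
    omega
  refine ⟨F, G, ⟨hF1, fun G' hG' => ?_⟩, hG1, hGF, hFG,
    fun h => (h.2 G hGF).elim hG1 fun h => hFG h.2⟩
  obtain ⟨H₁, H₂, h⟩ := id hG'
  rcases irr _ _ h with g | g
  · left
    by_contra hc
    have : ({1} : Set ℕ+) ∈ umul H₁ G' := by rw [g]; exact rfl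
    obtain ⟨a, ha⟩ := H₁.nonempty_of_mem this
    obtain ⟨b, hb, hb'⟩ := ((ne_one hc).and ha).exists
    exact hb (PNat.dvd_one_iff _ |>.1 ⟨a, by rw [mul_comm]; exact Eq.symm hb'⟩)
  · rw [g, mul_one'] at h
    rcases irr _ _ h with g | g
    · rw [g, one_mul'] at h
      exact Or.inr ⟨hG', pure 1, pure 1, by rw [mul_one', one_mul', h]⟩
    · exact Or.inl g

end Pool.Agent.Results.MP_b27926_lc.NotFeMin
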